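import Mathlib
import Pool.Agent.IdealIndep.Main

set_option autoImplicit false

namespace Pool.Agent.Results.MP_5eed22_lc.SmmAlephOne

open Cardinal Pool.Agent.IdealIndep

/-- If the dominating number and the ultrafilter number are both `ℵ₁`, then so is the least
cardinality of an infinite maximal ideal independent family of subsets of `ℕ`. -/
theorem result (hd : dominatingNumber = ℵ₁) (hu : ultrafilterNumber = ℵ₁) : smm = ℵ₁ :=
  smm_eq hd hu

end Pool.Agent.Results.MP_5eed22_lc.SmmAlephOne
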